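import Pool.Agent.R578.TG.E

/-!
# MP_7e32a6_co: covering triangular grids by hyperplanes with multiplicity

`f n d k` is the least size of a `k`-cover of the triangular grid `T_d(n)` by hyperplanes,
`fFacet n d k` the same for hyperplanes parallel to the facets of the simplex
(`Pool/Agent/R578/TG/Defs.lean`).

For all `d, k ≥ 1`:
* `f(n,d,k)/n` converges, to `C` say, and `f(n,d,k) ≤ C n + 2k(d-1)` for all `n ≥ 1`;
* `fFacet` has a slope: `|fFacet n d k - C' n|` is bounded, and `f ≤ fFacet`.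
-/

open Filter Topology Pool.Agent.R578.TG

namespace Pool.Agent.Results.MP_7e32a6_co.LimitExists

theorem result : ∀ d k : ℕ, 1 ≤ d → 1 ≤ k →
    (∃ C : ℝ, Tendsto (fun n : ℕ => (f n d k : ℝ) / n) atTop (𝓝 C) ∧
      ∀ n : ℕ, 1 ≤ n → (f n d k : ℝ) ≤ C * n + 2 * k * (d - 1)) ∧
    (∃ C' B : ℝ, ∀ n : ℕ, 1 ≤ n → |(fFacet n d k : ℝ) - C' * n| ≤ B) ∧
    (∀ n : ℕ, 1 ≤ n → f n d k ≤ fFacet n d k) :=
  fun _ k hd _ => ⟨main_A hd, main_B hd, fun n hn => f_le_facet hd n k hn⟩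

end Pool.Agent.Results.MP_7e32a6_co.LimitExists
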